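import Mathlib

namespace Pool.Agent.Results.MP_ecf776_lc.Q1

open List

variable {A : Type}

/-- One insertion, deletion or substitution of a symbol. -/
def Edit (u v : List A) : Prop := ∃ p s a b,
  (u = p ++ s ∧ v = p ++ a :: s) ∨ (u = p ++ a :: s ∧ v = p ++ s) ∨ (u = p ++ a :: s ∧ v = p ++ b :: s)

/-- `Steps n u v`: a sequence of exactly `n` edits transforms `u` into `v`. -/
inductive Steps : ℕ → List A → List A → Prop
  | refl (u) : Steps 0 u u
  | step {n u v w} : Steps n u v → Edit v w → Steps (n + 1) u w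

/-- Words at edit distance at most `k` from `x`. -/
def Ball (k : ℕ) (x : List A) : Language A := {w | ∃ n ≤ k, Steps n x w}

lemma del {s p t : List A} {a} (h : s <+ p ++ a :: t) :
    ∃ r, r <+ s ∧ r <+ p ++ t ∧ s.length ≤ r.length + 1 := by
  obtain ⟨u, v, rfl, b, c⟩ := sublist_append_iff.1 h
  rcases sublist_cons_iff.1 c with c | ⟨r, rfl, d⟩
  · exact ⟨_, .refl _, b.append c, by omega⟩
  · exact ⟨u ++ r, by simp, b.append d, by simp; omega⟩

lemma low {n} {x w : List A} (h : Steps n x w) : ∃ s, s <+ x ∧ s <+ w ∧ w.length ≤ n + s.length := by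
  induction h with
  | refl u => exact ⟨u, .refl _, .refl _, by omega⟩
  | step _ e ih =>
    obtain ⟨s, a, b, c⟩ := ih
    obtain ⟨p, t, y, z, ⟨rfl, rfl⟩ | ⟨rfl, rfl⟩ | ⟨rfl, rfl⟩⟩ := e
    · exact ⟨s, a, b.trans (by simp), by simp at c ⊢; omega⟩
    all_goals
      obtain ⟨r, d, e, f⟩ := del b
      exact ⟨r, d.trans a, e.trans (by simp), by simp at c ⊢; omega⟩

lemma ctx {n} {x w : List A} (a) (h : Steps n x w) : Steps n (a :: x) (a :: w) := by
  induction h with
  | refl u => exact .refl _
  | step _ e ih =>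
    obtain ⟨p, t, y, z, e⟩ := e
    exact ih.step ⟨a :: p, t, y, z, by simpa using e⟩

def g (S : A → Bool) (a : A) : Option A := if S a then some a else none

lemma up (S : A → Bool) (l : List A) (z s : List (Option A)) :
    ∃ n, n + countP S l = l.length + z.length ∧ Steps n (l.map some ++ s) (l.map (g S) ++ (z ++ s)) := by
  induction l with
  | nil =>
    refine ⟨z.length, by simp, ?_⟩
    induction z with
    | nil => exact .refl _
    | cons a z ih => exact ih.step ⟨[], _, a, a, .inl ⟨rfl, rfl⟩⟩
  | cons a l ih =>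
    obtain ⟨n, e, h⟩ := ih
    cases c : S a
    · exact ⟨n + 1, by simp [c]; omega, (ctx _ h).step ⟨[], _, _, _, .inr (.inr ⟨rfl, rfl⟩)⟩⟩
    · exact ⟨n, by simp [c]; omega, by simpa [g, c] using ctx (some a) h⟩

lemma mem (S : A → Bool) (p q : List A) (d : (p ++ q).Nodup) (t : ℕ) :
    (p ++ q).map (g S) ++ (replicate t none ++ q.map some) ∈ Ball (p ++ q).length ((p ++ q).map some) ↔
      t ≤ countP S p := by
  refine ⟨fun ⟨n, k, h⟩ => ?_, fun h => ?_⟩
  · obtain ⟨s, a, b, c⟩ := low h
    rw [map_append] at a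
    obtain ⟨u, v, rfl, i, j⟩ := sublist_append_iff.1 a
    have := j.length_le
    have e := i.countP_le (p := fun o => o.any S)
    rw [countP_eq_length.2, countP_map] at e
    · have := congrArg length (map_append (f := g S) (l₁ := p) (l₂ := q))
      simp only [Function.comp_def, Option.any_some, length_append, length_map, length_replicate] at *
      change _ ≤ countP S p at e
      omega
    intro o ho
    obtain ⟨y, m, rfl⟩ := mem_map.1 (i.subset ho)
    have := b.subset (mem_append_left _ ho)
    have := fun h => disjoint_of_nodup_append d m h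
    simp [g] at *
    grind
  · obtain ⟨n, e, k⟩ := up S p (q.map (g S) ++ replicate t none) (q.map some)
    exact ⟨n, by simp at e ⊢; omega, by simpa using k⟩

theorem result : ∃ c : ℝ, 0 < c ∧ ∀ N : ℕ, ∃ (A : Type) (_ : Fintype A) (x : List A) (k : ℕ),
    N ≤ min k x.length ∧ ∀ (σ : Type) [Fintype σ] (M : DFA A σ), M.accepts = Ball k x →
      (2 : ℝ) ^ (c * (min k x.length : ℕ)) ≤ Fintype.card σ := by
  refine ⟨1, one_pos, fun N => ⟨Option (Fin N), inferInstance, (finRange N).map some, N, by simp,
    fun σ _ M h => ?_⟩⟩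
  have := Fintype.card_le_of_injective (fun S : Fin N → Bool => M.eval ((finRange N).map (g S)))
    fun S T e => funext fun a => ?_
  · simp at this ⊢; exact_mod_cast this
  have k (p q) (E : finRange N = p ++ q) : countP S p = countP T p := by
    have n : N = (p ++ q).length := by rw [← E, length_finRange]
    refine eq_of_forall_le_iff fun t => ?_
    rw [← mem S p q (E ▸ nodup_finRange N), ← mem T p q (E ▸ nodup_finRange N), ← n, ← E, ← h]
    rw [DFA.mem_accepts, DFA.mem_accepts, DFA.eval, M.evalFrom_of_append, M.evalFrom_of_append _ (map _ _),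
      show M.evalFrom M.start _ = M.evalFrom M.start _ from e]
  obtain ⟨p, q, E⟩ := append_of_mem (mem_finRange a)
  have b := k (p ++ [a]) q (by rw [E]; simp)
  simp [k p _ E, countP_cons] at b
  grind

end Pool.Agent.Results.MP_ecf776_lc.Q1
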